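import Mathlib
import Pool.Agent.H964.QC.Stm

/-! Project QC (helper964): F4 (helper665). -/

set_option autoImplicit false

open MeasureTheory ProbabilityTheory Filter Finset

namespace Pool.Agent.H665.QC

open Pool.Agent.H964.QC

theorem hh_zero (t : ℕ) : hh (1 / 4) t 0 = ((t : ℝ) + 1) ^ (1 / 4 : ℝ) := by
  unfold hh
  have e : ((t : ℝ) + 1) / (((0 : ℕ) : ℝ) + 1) = (t : ℝ) + 1 := by
    rw [Nat.cast_zero, zero_add, div_one]
  rw [e]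
  refine max_eq_right ?_
  refine Real.one_le_rpow ?_ (by norm_num)
  have : (0 : ℝ) ≤ t := Nat.cast_nonneg t
  linarith

theorem hh_one_le (g : ℝ) (t a : ℕ) : 1 ≤ hh g t a := le_max_left _ _

theorem reindex (T : ℕ) (f : ℕ → ℝ) :
    ∑ j ∈ Finset.range T, f (T - j) = ∑ m ∈ Finset.Icc 1 T, f m := by
  refine Finset.sum_nbij' (fun j => T - j) (fun m => T - m) ?_ ?_ ?_ ?_ ?_
  · intro j hj
    rw [Finset.mem_range] at hj
    rw [Finset.mem_Icc]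
    omega
  · intro m hm
    rw [Finset.mem_Icc] at hm
    rw [Finset.mem_range]
    omega
  · intro j hj
    rw [Finset.mem_range] at hj
    show T - (T - j) = j
    omega
  · intro m hm
    rw [Finset.mem_Icc] at hm
    show T - (T - m) = m
    omega
  · intro j _
    rfl

/-- one term of the sum, an inequality between real numbers -/
theorem term_bound {V : Type} [Fintype V] (u : V → ℝ) (n4 g4 : V → ℝ) (gg4 : V → V → ℝ)
    (s2 κ E C₁ C0 eta hm h0 : ℝ) (m : ℕ) (hs2 : 0 ≤ s2) (hs1 : s2 ≤ 1) (hκ : 0 ≤ κ) (hE : 1 ≤ E)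
    (hC₁ : 1 ≤ C₁) (hC0 : 1 ≤ C0) (heta : 0 ≤ eta) (heta1 : eta ≤ 1) (hm1 : 1 ≤ m)
    (hhm : 1 ≤ hm) (hh0 : hm ≤ h0) (hu : ∀ z, 0 ≤ u z) (hu1 : ∀ z, u z ≤ C0 / m)
    (ha : ∑ z, u z ^ 2 ≤ C0 / m) (hn4 : ∀ z, n4 z ≤ C₁ * eta * E * hm)
    (hg4 : ∀ z, g4 z ≤ 2 * E * h0) (hg0 : ∀ z, 0 ≤ g4 z)
    (hgg4 : ∀ z z', gg4 z z' ≤ 2 * E * h0) :
    6 * s2 * ∑ z, u z ^ 2 * n4 z + 4 * κ * s2 * ∑ z, u z ^ 3 * Real.sqrt (n4 z * g4 z)
      + 3 * s2 ^ 2 * ∑ z, ∑ z', u z ^ 2 * u z' ^ 2 * gg4 z z' + κ * s2 * ∑ z, u z ^ 4 * g4 z ≤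
    (6 * C₁ + 8 * κ * C₁ * C0 + 6 * C0 + 2 * κ * C0 ^ 2) *
      (eta * (s2 * E) * ((∑ z, u z ^ 2) * hm) + s2 * E * h0 * ((∑ z, u z ^ 2) / m)) := by
  have hm0 : (1 : ℝ) ≤ m := by exact_mod_cast hm1
  have hmp : (0 : ℝ) < m := by linarith
  have hh0' : 1 ≤ h0 := hhm.trans hh0
  set a := ∑ z, u z ^ 2 with hadef
  have ha0 : 0 ≤ a := Finset.sum_nonneg fun z _ => by positivity
  -- term 1
  have t1 : ∑ z, u z ^ 2 * n4 z ≤ a * (C₁ * eta * E * hm) := by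
    rw [hadef, Finset.sum_mul]
    exact Finset.sum_le_sum fun z _ => mul_le_mul_of_nonneg_left (hn4 z) (by positivity)
  -- term 2
  have hsq : ∀ z, Real.sqrt (n4 z * g4 z) ≤ 2 * C₁ * E * h0 := by
    intro z
    have h1 : n4 z * g4 z ≤ (2 * C₁ * E * h0) ^ 2 := by
      have e1 : n4 z * g4 z ≤ (C₁ * eta * E * hm) * g4 z :=
        mul_le_mul_of_nonneg_right (hn4 z) (hg0 z)
      have e2 : (C₁ * eta * E * hm) * g4 z ≤ (C₁ * eta * E * hm) * (2 * E * h0) :=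
        mul_le_mul_of_nonneg_left (hg4 z) (by positivity)
      have e3 : C₁ * eta * E * hm ≤ C₁ * 1 * E * h0 := by gcongr
      have e4 : (C₁ * eta * E * hm) * (2 * E * h0) ≤ (C₁ * 1 * E * h0) * (2 * E * h0) :=
        mul_le_mul_of_nonneg_right e3 (by positivity)
      have e5 : (C₁ * 1 * E * h0) * (2 * E * h0) = C₁ * (2 * (E * h0) ^ 2) := by ring
      have e6 : C₁ * (2 * (E * h0) ^ 2) ≤ (C₁ * C₁) * (2 * (2 * (E * h0) ^ 2)) := by
        have : C₁ ≤ C₁ * C₁ := by nlinarith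
        have h2 : 2 * (E * h0) ^ 2 ≤ 2 * (2 * (E * h0) ^ 2) := by
          have : 0 ≤ (E * h0) ^ 2 := by positivity
          linarith
        exact mul_le_mul this h2 (by positivity) (by positivity)
      calc n4 z * g4 z ≤ C₁ * (2 * (E * h0) ^ 2) := (e1.trans e2).trans (e4.trans e5.le)
        _ ≤ (C₁ * C₁) * (2 * (2 * (E * h0) ^ 2)) := e6
        _ = (2 * C₁ * E * h0) ^ 2 := by ring
    calc Real.sqrt (n4 z * g4 z) ≤ Real.sqrt ((2 * C₁ * E * h0) ^ 2) := Real.sqrt_le_sqrt h1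
      _ = 2 * C₁ * E * h0 := Real.sqrt_sq (by positivity)
  have t2 : ∑ z, u z ^ 3 * Real.sqrt (n4 z * g4 z) ≤ a * (C0 / m * (2 * C₁ * E * h0)) := by
    rw [hadef, Finset.sum_mul]
    refine Finset.sum_le_sum fun z _ => ?_
    have e1 : u z ^ 3 = u z ^ 2 * u z := by ring
    rw [e1, mul_assoc]
    refine mul_le_mul_of_nonneg_left ?_ (by positivity)
    exact mul_le_mul (hu1 z) (hsq z) (Real.sqrt_nonneg _) (by positivity)
  -- term 3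
  have t3 : ∑ z, ∑ z', u z ^ 2 * u z' ^ 2 * gg4 z z' ≤ a * (C0 / m) * (2 * E * h0) := by
    have e1 : ∑ z, ∑ z', u z ^ 2 * u z' ^ 2 * gg4 z z' ≤
        ∑ z, ∑ z', u z ^ 2 * u z' ^ 2 * (2 * E * h0) :=
      Finset.sum_le_sum fun z _ => Finset.sum_le_sum fun z' _ =>
        mul_le_mul_of_nonneg_left (hgg4 z z') (by positivity)
    have e2 : ∑ z, ∑ z', u z ^ 2 * u z' ^ 2 * (2 * E * h0) = a * a * (2 * E * h0) := by
      rw [hadef, Finset.sum_mul_sum, Finset.sum_mul]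
      refine Finset.sum_congr rfl fun z _ => ?_
      rw [Finset.sum_mul]
    rw [e2] at e1
    refine e1.trans ?_
    exact mul_le_mul_of_nonneg_right (mul_le_mul_of_nonneg_left ha ha0) (by positivity)
  -- term 4
  have t4 : ∑ z, u z ^ 4 * g4 z ≤ a * ((C0 / m) ^ 2 * (2 * E * h0)) := by
    rw [hadef, Finset.sum_mul]
    refine Finset.sum_le_sum fun z _ => ?_
    have e1 : u z ^ 4 = u z ^ 2 * u z ^ 2 := by ring
    rw [e1, mul_assoc]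
    refine mul_le_mul_of_nonneg_left ?_ (by positivity)
    exact mul_le_mul (pow_le_pow_left₀ (hu z) (hu1 z) 2) (hg4 z) (hg0 z) (by positivity)
  set X := eta * (s2 * E) * (a * hm) with hX
  set Y := s2 * E * h0 * (a / m) with hY
  have hX0 : 0 ≤ X := by positivity
  have hY0 : 0 ≤ Y := by positivity
  have s1 : 6 * s2 * ∑ z, u z ^ 2 * n4 z ≤ 6 * C₁ * X := by
    calc 6 * s2 * ∑ z, u z ^ 2 * n4 z ≤ 6 * s2 * (a * (C₁ * eta * E * hm)) :=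
          mul_le_mul_of_nonneg_left t1 (by positivity)
      _ = 6 * C₁ * X := by rw [hX]; ring
  have s2' : 4 * κ * s2 * ∑ z, u z ^ 3 * Real.sqrt (n4 z * g4 z) ≤ 8 * κ * C₁ * C0 * Y := by
    calc 4 * κ * s2 * ∑ z, u z ^ 3 * Real.sqrt (n4 z * g4 z)
        ≤ 4 * κ * s2 * (a * (C0 / m * (2 * C₁ * E * h0))) :=
          mul_le_mul_of_nonneg_left t2 (by positivity)
      _ = 8 * κ * C₁ * C0 * Y := by rw [hY]; ring
  have s3 : 3 * s2 ^ 2 * ∑ z, ∑ z', u z ^ 2 * u z' ^ 2 * gg4 z z' ≤ 6 * C0 * Y := by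
    calc 3 * s2 ^ 2 * ∑ z, ∑ z', u z ^ 2 * u z' ^ 2 * gg4 z z'
        ≤ 3 * s2 ^ 2 * (a * (C0 / m) * (2 * E * h0)) :=
          mul_le_mul_of_nonneg_left t3 (by positivity)
      _ = s2 * (6 * C0 * Y) := by rw [hY]; ring
      _ ≤ 1 * (6 * C0 * Y) := mul_le_mul_of_nonneg_right hs1 (by positivity)
      _ = 6 * C0 * Y := one_mul _
  have s4 : κ * s2 * ∑ z, u z ^ 4 * g4 z ≤ 2 * κ * C0 ^ 2 * Y := by
    have hinv : (1 : ℝ) / m ≤ 1 := by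
      rw [div_le_one hmp]
      exact hm0
    calc κ * s2 * ∑ z, u z ^ 4 * g4 z ≤ κ * s2 * (a * ((C0 / m) ^ 2 * (2 * E * h0))) :=
          mul_le_mul_of_nonneg_left t4 (by positivity)
      _ = (2 * κ * C0 ^ 2 * Y) * (1 / m) := by rw [hY]; ring
      _ ≤ (2 * κ * C0 ^ 2 * Y) * 1 := mul_le_mul_of_nonneg_left hinv (by positivity)
      _ = _ := mul_one _
  have f1 : 6 * C₁ * X ≤ (6 * C₁ + 8 * κ * C₁ * C0 + 6 * C0 + 2 * κ * C0 ^ 2) * X := by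
    refine mul_le_mul_of_nonneg_right ?_ hX0
    have : 0 ≤ 8 * κ * C₁ * C0 + 6 * C0 + 2 * κ * C0 ^ 2 := by positivity
    linarith
  have f2 : 8 * κ * C₁ * C0 * Y + 6 * C0 * Y + 2 * κ * C0 ^ 2 * Y ≤
      (6 * C₁ + 8 * κ * C₁ * C0 + 6 * C0 + 2 * κ * C0 ^ 2) * Y := by
    have : 0 ≤ 6 * C₁ * Y := by positivity
    linarith
  have f3 : (6 * C₁ + 8 * κ * C₁ * C0 + 6 * C0 + 2 * κ * C0 ^ 2) * (X + Y) =
      (6 * C₁ + 8 * κ * C₁ * C0 + 6 * C0 + 2 * κ * C0 ^ 2) * X +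
      (6 * C₁ + 8 * κ * C₁ * C0 + 6 * C0 + 2 * κ * C0 ^ 2) * Y := mul_add _ _ _
  rw [f3]
  linarith

theorem t_F4 : S_F4 := by
  intro hM4 hT1 hT3 hOV hHH hyp C0 κ hC0 hκ
  obtain ⟨C₁, hC₁, H⟩ := hyp C0 κ hC0 hκ
  have hbig : C₁ ≤ 6 * C₁ + 8 * κ * C₁ * C0 + 6 * C0 + 2 * κ * C0 ^ 2 := by
    have : 0 ≤ 8 * κ * C₁ * C0 + 6 * C0 + 2 * κ * C0 ^ 2 := by positivity
    linarith
  refine ⟨6 * C₁ + 8 * κ * C₁ * C0 + 6 * C0 + 2 * κ * C0 ^ 2, hC₁.trans hbig, ?_⟩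
  intro V _ _ N0 W Ω _ P _ s2 E η w t T hs2 hη ht hT hRR hE hC hw hw1
  have ht0 : (0 : ℝ) < t := by exact_mod_cast ht
  have hell : 1 ≤ 1 + Real.log (1 + (T : ℝ) / t) := by
    have : 0 ≤ Real.log (1 + (T : ℝ) / t) := Real.log_nonneg (by
      have : 0 ≤ (T : ℝ) / t := by positivity
      linarith)
    linarith
  have hRR0 : 0 ≤ RR T := Finset.sum_nonneg fun i _ => sq_nonneg _
  have hE1 : 1 ≤ E := by
    rw [hE, le_div_iff₀ (by linarith)]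
    have : 0 ≤ s2 * RR T := by positivity
    linarith
  have hC' : C₁ * s2 * E * (1 + Real.log (1 + (T : ℝ) / t)) ≤ 1 := by
    refine le_trans ?_ hC
    gcongr
  have hX : s2 * E * (1 + Real.log (1 + (T : ℝ) / t)) ≤ 1 := by
    refine le_trans ?_ hC'
    calc s2 * E * (1 + Real.log (1 + (T : ℝ) / t))
        = 1 * (s2 * E * (1 + Real.log (1 + (T : ℝ) / t))) := (one_mul _).symm
      _ ≤ C₁ * (s2 * E * (1 + Real.log (1 + (T : ℝ) / t))) :=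
        mul_le_mul_of_nonneg_right hC₁ (by positivity)
      _ = _ := by ring
  have hs1 : s2 ≤ 1 := by
    refine le_trans ?_ hX
    calc s2 = s2 * 1 * 1 := by ring
      _ ≤ s2 * E * (1 + Real.log (1 + (T : ℝ) / t)) := by gcongr
  have hX0 : 0 ≤ s2 * E * (1 + Real.log (1 + (T : ℝ) / t)) := by positivity
  obtain ⟨HG, HN⟩ := H V N0 W Ω P s2 E η w t T hs2 hη ht hT hRR hE hC' hw hw1
  obtain ⟨hwt0, -, -, -, -, -, hov, -, -⟩ := hOV V C0 N0 W w hw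
  obtain ⟨-, hwt1, hov1⟩ := hov hw1
  obtain ⟨_, -, hanti, -, -⟩ := hHH (1 / 4) (by norm_num) le_rfl
  refine (hM4 V C0 N0 W Ω P s2 κ η hs2.le hκ hη w hw T).trans ?_
  rw [← hh_zero, ← reindex T (fun m => ov W w m * hh (1 / 4) t m),
    ← reindex T (fun m => ov W w m / m)]
  rw [Finset.mul_sum, Finset.mul_sum, ← Finset.sum_add_distrib, Finset.mul_sum]
  refine Finset.sum_le_sum fun j hj => ?_
  rw [Finset.mem_range] at hj
  have hm1 : 1 ≤ T - j := by omega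
  have hm2 : T - j ≤ N0 := by omega
  exact term_bound (fun z => wt W w (T - j) z) (fun z => N4 W P η w T j 0 z)
    (fun z => G4 W P η j 0 0 z z) (fun z z' => G4 W P η j 0 0 z z') s2 κ E C₁ C0
    (s2 * E * (1 + Real.log (1 + (T : ℝ) / t))) (hh (1 / 4) t (T - j)) (hh (1 / 4) t 0) (T - j)
    hs2.le hs1 hκ hE1 hC₁ hC0 hX0 hX hm1 (hh_one_le _ _ _) (hanti t (Nat.zero_le _))
    (fun z => hwt0 _ z) (fun z => hwt1 _ z hm1 hm2) (hov1 _ hm1 hm2)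
    (fun z => HN j z hj.le) (fun z => HG j 0 z z (by omega))
    (fun z => (hT1 V C0 N0 W Ω P s2 κ η hs2.le hκ hη j 0 0 z z).1 z z)
    (fun z z' => HG j 0 z z' (by omega))

end Pool.Agent.H665.QC
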